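import Pool.Agent.Lib.MP_e6c168_lc.Proof

set_option autoImplicit false

namespace Pool.Agent.Results.MP_e6c168_lc.BoundedCost

open Pool.Agent.Lib.MP_e6c168_lc

/-- For every number `N ≥ 2` of parties there is a fast protocol in which every party pays at most
`13`; so `M(N) ≤ 13` for all `N`, and `M(N) = Ω(N)` fails. -/
theorem result (N : ℕ) (hN : 2 ≤ N) : ∃ P : FastProtocol N, ∀ i : Fin N, cost P i ≤ 13 :=
  main_bound N hN

end Pool.Agent.Results.MP_e6c168_lc.BoundedCost
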